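import Pool.Agent.Helper13_Eng2.Stmts

/-!
# Squad ENG, part 2, module PLP: the permutations
-/

set_option autoImplicit false

namespace Pool.Agent.Eng.H27

/-- decoding -/
def dec (m c : ℕ) : Option (ZMod m) := if c < m then some (c : ZMod m) else none

/-- encoding -/
def enc (m : ℕ) : Option (ZMod m) → ℕ
  | none => m
  | some x => x.val

/-- the shift for codes -/
def sh (m c : ℕ) : ℕ := if c = m then m else if c + 1 = m then 0 else c + 1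

lemma dec_enc (m : ℕ) [NeZero m] (o : Option (ZMod m)) : dec m (enc m o) = o := by
  cases o with
  | none => simp [dec, enc]
  | some x => simp [dec, enc, ZMod.val_lt x]

lemma enc_dec (m : ℕ) {c : ℕ} (hc : c ≤ m) : enc m (dec m c) = c := by
  unfold dec
  split_ifs with h
  · simp only [enc]
    exact ZMod.val_cast_of_lt h
  · simp only [enc]
    omega

lemma enc_le (m : ℕ) [NeZero m] (o : Option (ZMod m)) : enc m o ≤ m := by
  cases o with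
  | none => simp [enc]
  | some x => exact (ZMod.val_lt x).le

lemma shift_dec (m : ℕ) [NeZero m] {c : ℕ} (hc : c ≤ m) : shift m (dec m c) = dec m (sh m c) := by
  have hm := NeZero.pos m
  unfold dec sh shift
  by_cases h1 : c = m
  · subst h1
    simp
  · have h2 : c < m := by omega
    by_cases h3 : c + 1 = m
    · simp only [h1, if_false, h2, if_true, h3, hm]
      simp only [Equiv.optionCongr_apply, Option.map_some, Equiv.coe_addRight, Nat.cast_zero]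
      congr 1
      have : ((c + 1 : ℕ) : ZMod m) = 0 := by rw [h3]; simp
      simpa using this
    · have h4 : c + 1 < m := by omega
      simp only [h1, if_false, h2, if_true, h3, h4]
      simp

theorem build (m : ℕ) [NeZero m] (fa : ℕ → ℕ) (h1 : ∀ c ≤ m, fa c ≤ m)
    (h2 : ∀ c ≤ m, fa (fa c) = c) (h3 : fa m = 0)
    (h4 : ∀ c ≤ m, sh m (fa (sh m (fa (sh m (fa c))))) = c) :
    ∃ a : Equiv.Perm (Option (ZMod m)), a * a = 1 ∧ a none = some 0 ∧ (shift m * a) ^ 3 = 1 := by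
  have hm := NeZero.pos m
  have hsh : ∀ c ≤ m, sh m c ≤ m := by
    intro c hc
    unfold sh
    split_ifs <;> omega
  have hinv : Function.Involutive fun o : Option (ZMod m) => dec m (fa (enc m o)) := by
    intro o
    simp only
    rw [enc_dec m (h1 _ (enc_le m o)), h2 _ (enc_le m o), dec_enc]
  refine ⟨hinv.toPerm, ?_, ?_, ?_⟩
  · ext1 o
    simp only [Equiv.Perm.mul_apply, Function.Involutive.coe_toPerm, Equiv.Perm.one_apply]
    exact hinv o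
  · simp only [Function.Involutive.coe_toPerm]
    simp [enc, h3, dec, hm]
  · have key : ∀ c ≤ m, (shift m * hinv.toPerm) (dec m c) = dec m (sh m (fa c)) := by
      intro c hc
      rw [Equiv.Perm.mul_apply, Function.Involutive.coe_toPerm]
      rw [enc_dec m hc, shift_dec m (h1 c hc)]
    ext1 o
    have e : (shift m * hinv.toPerm) ^ 3
        = (shift m * hinv.toPerm) * ((shift m * hinv.toPerm) * (shift m * hinv.toPerm)) := by
      rw [pow_succ, pow_two, mul_assoc]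
    rw [e, Equiv.Perm.mul_apply (shift m * hinv.toPerm), Equiv.Perm.mul_apply (shift m * hinv.toPerm),
      Equiv.Perm.one_apply]
    have ho := enc_le m o
    conv_lhs => rw [← dec_enc m o]
    rw [key _ ho, key _ (hsh _ (h1 _ ho)), key _ (hsh _ (h1 _ (hsh _ (h1 _ ho)))), h4 _ ho, dec_enc]

/-- `m = 4 K + 3` -/
def fa3 (K c : ℕ) : ℕ :=
  if c = 4 * K + 3 then 0 else if c = 0 then 4 * K + 3
  else if c ≤ 3 * K then (if c % 3 = 1 then 4 * K + 2 - (c - 1) / 3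
    else if c % 3 = 2 then c + 1 else c - 1)
  else if c = 3 * K + 1 then 3 * K + 2 else if c = 3 * K + 2 then 3 * K + 1
  else 1 + 3 * (4 * K + 2 - c)

/-- `m = 4 K + 1` -/
def fa1 (K c : ℕ) : ℕ :=
  if c = 4 * K + 1 then 0 else if c = 0 then 4 * K + 1
  else if c + 2 ≤ 3 * K then (if c % 3 = 1 then 4 * K - (c - 1) / 3
    else if c % 3 = 2 then c + 1 else c - 1)
  else if c ≤ 3 * K then c
  else 1 + 3 * (4 * K - c)

lemma fa3_spec (K c : ℕ) : (c = 4 * K + 3 ∧ fa3 K c = 0) ∨ (c = 0 ∧ fa3 K c = 4 * K + 3) ∨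
    (c ≠ 0 ∧ c ≤ 3 * K ∧ c % 3 = 1 ∧ fa3 K c = 4 * K + 2 - (c - 1) / 3) ∨
    (c ≠ 0 ∧ c ≤ 3 * K ∧ c % 3 = 2 ∧ fa3 K c = c + 1) ∨
    (c ≠ 0 ∧ c ≤ 3 * K ∧ c % 3 = 0 ∧ fa3 K c = c - 1) ∨ (c = 3 * K + 1 ∧ fa3 K c = 3 * K + 2) ∨
    (c = 3 * K + 2 ∧ fa3 K c = 3 * K + 1) ∨
    (3 * K + 3 ≤ c ∧ c ≠ 4 * K + 3 ∧ fa3 K c = 1 + 3 * (4 * K + 2 - c)) := by
  unfold fa3
  by_cases h1 : c = 4 * K + 3
  · rw [if_pos h1]; exact Or.inl ⟨h1, rfl⟩
  rw [if_neg h1]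
  refine Or.inr ?_
  by_cases h2 : c = 0
  · rw [if_pos h2]; exact Or.inl ⟨h2, rfl⟩
  rw [if_neg h2]
  refine Or.inr ?_
  by_cases h3 : c ≤ 3 * K
  · rw [if_pos h3]
    by_cases h4 : c % 3 = 1
    · rw [if_pos h4]; exact Or.inl ⟨h2, h3, h4, rfl⟩
    rw [if_neg h4]
    refine Or.inr ?_
    by_cases h5 : c % 3 = 2
    · rw [if_pos h5]; exact Or.inl ⟨h2, h3, h5, rfl⟩
    rw [if_neg h5]
    exact Or.inr (Or.inl ⟨h2, h3, by omega, rfl⟩)
  rw [if_neg h3]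
  refine Or.inr (Or.inr (Or.inr ?_))
  by_cases h4 : c = 3 * K + 1
  · rw [if_pos h4]; exact Or.inl ⟨h4, rfl⟩
  rw [if_neg h4]
  refine Or.inr ?_
  by_cases h5 : c = 3 * K + 2
  · rw [if_pos h5]; exact Or.inl ⟨h5, rfl⟩
  rw [if_neg h5]
  exact Or.inr ⟨by omega, h1, rfl⟩

lemma fa1_spec (K c : ℕ) : (c = 4 * K + 1 ∧ fa1 K c = 0) ∨ (c = 0 ∧ fa1 K c = 4 * K + 1) ∨
    (c ≠ 0 ∧ c + 2 ≤ 3 * K ∧ c % 3 = 1 ∧ fa1 K c = 4 * K - (c - 1) / 3) ∨
    (c ≠ 0 ∧ c + 2 ≤ 3 * K ∧ c % 3 = 2 ∧ fa1 K c = c + 1) ∨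
    (c ≠ 0 ∧ c + 2 ≤ 3 * K ∧ c % 3 = 0 ∧ fa1 K c = c - 1) ∨
    (c ≠ 0 ∧ 3 * K < c + 2 ∧ c ≤ 3 * K ∧ fa1 K c = c) ∨
    (c ≠ 0 ∧ 3 * K < c + 2 ∧ 3 * K + 1 ≤ c ∧ c ≠ 4 * K + 1 ∧ fa1 K c = 1 + 3 * (4 * K - c)) := by
  unfold fa1
  by_cases h1 : c = 4 * K + 1
  · rw [if_pos h1]; exact Or.inl ⟨h1, rfl⟩
  rw [if_neg h1]
  refine Or.inr ?_
  by_cases h2 : c = 0
  · rw [if_pos h2]; exact Or.inl ⟨h2, rfl⟩
  rw [if_neg h2]
  refine Or.inr ?_
  by_cases h3 : c + 2 ≤ 3 * K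
  · rw [if_pos h3]
    by_cases h4 : c % 3 = 1
    · rw [if_pos h4]; exact Or.inl ⟨h2, h3, h4, rfl⟩
    rw [if_neg h4]
    refine Or.inr ?_
    by_cases h5 : c % 3 = 2
    · rw [if_pos h5]; exact Or.inl ⟨h2, h3, h5, rfl⟩
    rw [if_neg h5]
    exact Or.inr (Or.inl ⟨h2, h3, by omega, rfl⟩)
  rw [if_neg h3]
  refine Or.inr (Or.inr (Or.inr ?_))
  by_cases h4 : c ≤ 3 * K
  · rw [if_pos h4]; exact Or.inl ⟨h2, by omega, h4, rfl⟩
  rw [if_neg h4]
  exact Or.inr ⟨h2, by omega, by omega, h1, rfl⟩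

lemma sh_last (m : ℕ) : sh m m = m := by unfold sh; rw [if_pos rfl]

lemma sh_zero {m c : ℕ} (h : c + 1 = m) : sh m c = 0 := by
  unfold sh
  rw [if_neg (by omega), if_pos h]

lemma sh_succ {m c : ℕ} (h : c ≠ m) (h' : c + 1 ≠ m) : sh m c = c + 1 := by
  unfold sh
  rw [if_neg h, if_neg h']

lemma r3_spec (K c : ℕ) (hc : c ≤ 4 * K + 3) :
    (c = 4 * K + 3 ∧ sh (4 * K + 3) (fa3 K c) = 1) ∨
    (c = 0 ∧ sh (4 * K + 3) (fa3 K c) = 4 * K + 3) ∨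
    (c = 1 ∧ sh (4 * K + 3) (fa3 K c) = 0) ∨
    (c ≠ 0 ∧ c ≠ 1 ∧ c ≤ 3 * K + 1 ∧ c % 3 = 1 ∧
      sh (4 * K + 3) (fa3 K c) = 4 * K + 3 - (c - 1) / 3) ∨
    (c ≤ 3 * K + 2 ∧ c % 3 = 2 ∧ c ≠ 3 * K + 2 ∧ sh (4 * K + 3) (fa3 K c) = c + 2) ∨
    (c ≠ 0 ∧ c ≤ 3 * K ∧ c % 3 = 0 ∧ sh (4 * K + 3) (fa3 K c) = c) ∨
    (c = 3 * K + 2 ∧ sh (4 * K + 3) (fa3 K c) = c) ∨
    (3 * K + 3 ≤ c ∧ c ≠ 4 * K + 3 ∧ sh (4 * K + 3) (fa3 K c) = 2 + 3 * (4 * K + 2 - c)) := by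
  rcases fa3_spec K c with ⟨h, e⟩ | ⟨h, e⟩ | ⟨h, h', h'', e⟩ | ⟨h, h', h'', e⟩ | ⟨h, h', h'', e⟩ |
    ⟨h, e⟩ | ⟨h, e⟩ | ⟨h, h', e⟩ <;> rw [e]
  · exact Or.inl ⟨h, sh_succ (by omega) (by omega)⟩
  · exact Or.inr (Or.inl ⟨h, sh_last _⟩)
  · by_cases h1 : c = 1
    · exact Or.inr (Or.inr (Or.inl ⟨h1, sh_zero (by omega)⟩))
    · refine Or.inr (Or.inr (Or.inr (Or.inl ⟨h, h1, by omega, h'', ?_⟩)))
      rw [sh_succ (by omega) (by omega)]
      omega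
  · refine Or.inr (Or.inr (Or.inr (Or.inr (Or.inl ⟨by omega, h'', by omega, ?_⟩))))
    rw [sh_succ (by omega) (by omega)]
  · refine Or.inr (Or.inr (Or.inr (Or.inr (Or.inr (Or.inl ⟨h, h', h'', ?_⟩)))))
    rw [sh_succ (by omega) (by omega)]
    omega
  · by_cases h1 : c = 1
    · exact Or.inr (Or.inr (Or.inl ⟨h1, sh_zero (by omega)⟩))
    · refine Or.inr (Or.inr (Or.inr (Or.inl ⟨by omega, h1, by omega, by omega, ?_⟩)))
      rw [sh_succ (by omega) (by omega)]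
      omega
  · refine Or.inr (Or.inr (Or.inr (Or.inr (Or.inr (Or.inr (Or.inl ⟨h, ?_⟩))))))
    rw [sh_succ (by omega) (by omega)]
    omega
  · refine Or.inr (Or.inr (Or.inr (Or.inr (Or.inr (Or.inr (Or.inr ⟨h, h', ?_⟩))))))
    rw [sh_succ (by omega) (by omega)]
    omega

lemma r1_spec (K c : ℕ) (hK : 1 ≤ K) (hc : c ≤ 4 * K + 1) :
    (c = 4 * K + 1 ∧ sh (4 * K + 1) (fa1 K c) = 1) ∨
    (c = 0 ∧ sh (4 * K + 1) (fa1 K c) = 4 * K + 1) ∨
    (c = 1 ∧ sh (4 * K + 1) (fa1 K c) = 0) ∨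
    (c ≠ 0 ∧ c ≠ 1 ∧ c ≤ 3 * K ∧ c % 3 = 1 ∧
      sh (4 * K + 1) (fa1 K c) = 4 * K + 1 - (c - 1) / 3) ∨
    (c + 2 ≤ 3 * K ∧ c % 3 = 2 ∧ sh (4 * K + 1) (fa1 K c) = c + 2) ∨
    (c ≠ 0 ∧ c + 2 ≤ 3 * K ∧ c % 3 = 0 ∧ sh (4 * K + 1) (fa1 K c) = c) ∨
    (3 * K < c + 2 ∧ c ≤ 3 * K ∧ sh (4 * K + 1) (fa1 K c) = c + 1) ∨
    (3 * K + 1 ≤ c ∧ c ≠ 4 * K + 1 ∧ sh (4 * K + 1) (fa1 K c) = 2 + 3 * (4 * K - c)) := by
  rcases fa1_spec K c with ⟨h, e⟩ | ⟨h, e⟩ | ⟨h, h', h'', e⟩ | ⟨h, h', h'', e⟩ | ⟨h, h', h'', e⟩ |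
    ⟨h, h', h'', e⟩ | ⟨h, h', h'', h3, e⟩ <;> rw [e]
  · exact Or.inl ⟨h, sh_succ (by omega) (by omega)⟩
  · exact Or.inr (Or.inl ⟨h, sh_last _⟩)
  · by_cases h1 : c = 1
    · exact Or.inr (Or.inr (Or.inl ⟨h1, sh_zero (by omega)⟩))
    · refine Or.inr (Or.inr (Or.inr (Or.inl ⟨h, h1, by omega, h'', ?_⟩)))
      rw [sh_succ (by omega) (by omega)]
      omega
  · refine Or.inr (Or.inr (Or.inr (Or.inr (Or.inl ⟨by omega, h'', ?_⟩))))
    rw [sh_succ (by omega) (by omega)]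
  · refine Or.inr (Or.inr (Or.inr (Or.inr (Or.inr (Or.inl ⟨h, h', h'', ?_⟩)))))
    rw [sh_succ (by omega) (by omega)]
    omega
  · refine Or.inr (Or.inr (Or.inr (Or.inr (Or.inr (Or.inr (Or.inl ⟨h', h'', ?_⟩))))))
    rw [sh_succ (by omega) (by omega)]
  · refine Or.inr (Or.inr (Or.inr (Or.inr (Or.inr (Or.inr (Or.inr ⟨h'', h3, ?_⟩))))))
    rw [sh_succ (by omega) (by omega)]
    omega

/-- PLP -/
theorem plp : PlpStmt := by
  intro m hodd hm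
  have : NeZero m := ⟨by omega⟩
  have hmod : m % 4 = 3 ∨ m % 4 = 1 := by
    obtain ⟨k, hk⟩ := hodd
    omega
  rcases hmod with hmod | hmod
  · obtain ⟨K, hK⟩ : ∃ K, m = 4 * K + 3 := ⟨m / 4, by omega⟩
    clear hmod hodd hm
    subst hK
    have hle : ∀ c ≤ 4 * K + 3, fa3 K c ≤ 4 * K + 3 := by
      intro c hc
      rcases fa3_spec K c with h | h | h | h | h | h | h | h <;> omega
    refine build _ (fa3 K) hle ?_ (by simp [fa3]) ?_
    · intro c hc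
      rcases fa3_spec K c with h | h | h | h | h | h | h | h <;>
        rcases fa3_spec K (fa3 K c) with h' | h' | h' | h' | h' | h' | h' | h' <;> omega
    · intro c hc
      have hrle : ∀ c ≤ 4 * K + 3, sh (4 * K + 3) (fa3 K c) ≤ 4 * K + 3 := by
        intro c hc
        rcases r3_spec K c hc with h | h | h | h | h | h | h | h <;> omega
      have s1 := r3_spec K c hc
      have s2 := r3_spec K _ (hrle c hc)
      have s3 := r3_spec K _ (hrle _ (hrle c hc))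
      generalize sh (4 * K + 3) (fa3 K c) = x at *
      generalize sh (4 * K + 3) (fa3 K x) = y at *
      generalize sh (4 * K + 3) (fa3 K y) = z at *
      clear hle hrle
      rcases s1 with h | h | h | h | h | h | h | h <;>
        rcases s2 with h' | h' | h' | h' | h' | h' | h' | h' <;>
        first
          | (exfalso; clear s3; omega)
          | (rcases s3 with h'' | h'' | h'' | h'' | h'' | h'' | h'' | h'' <;> omega)
  · obtain ⟨K, hK⟩ : ∃ K, m = 4 * K + 1 := ⟨m / 4, by omega⟩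
    have hK1 : 1 ≤ K := by omega
    clear hmod hodd hm
    subst hK
    have hle : ∀ c ≤ 4 * K + 1, fa1 K c ≤ 4 * K + 1 := by
      intro c hc
      rcases fa1_spec K c with h | h | h | h | h | h | h <;> omega
    refine build _ (fa1 K) hle ?_ (by simp [fa1]) ?_
    · intro c hc
      rcases fa1_spec K c with h | h | h | h | h | h | h <;>
        rcases fa1_spec K (fa1 K c) with h' | h' | h' | h' | h' | h' | h' <;> omega
    · intro c hc
      have hrle : ∀ c ≤ 4 * K + 1, sh (4 * K + 1) (fa1 K c) ≤ 4 * K + 1 := by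
        intro c hc
        rcases r1_spec K c hK1 hc with h | h | h | h | h | h | h | h <;> omega
      have s1 := r1_spec K c hK1 hc
      have s2 := r1_spec K _ hK1 (hrle c hc)
      have s3 := r1_spec K _ hK1 (hrle _ (hrle c hc))
      generalize sh (4 * K + 1) (fa1 K c) = x at *
      generalize sh (4 * K + 1) (fa1 K x) = y at *
      generalize sh (4 * K + 1) (fa1 K y) = z at *
      clear hle hrle
      rcases s1 with h | h | h | h | h | h | h | h <;>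
        rcases s2 with h' | h' | h' | h' | h' | h' | h' | h' <;>
        first
          | (exfalso; clear s3; omega)
          | (rcases s3 with h'' | h'' | h'' | h'' | h'' | h'' | h'' | h'' <;> omega)

end Pool.Agent.Eng.H27
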